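import Pool.Agent.V1153.UG.Six
import Pool.Agent.V1153.UG.Ent

/-!
Algebraic ratios of analytic functions: the two forms of the definition.
-/

set_option autoImplicit false

namespace Pool.Agent.U178.GG

open MvPolynomial Pool.Agent.V1153.UG

/-- The ratio of the functions `a` and `b` on `U` is algebraic of degree and height at most `m`: there
is an equation `∑ β, p_β(z) a(z)^β b(z)^(m - β) = 0` with polynomials `p_β` of degree at most `m`,
not all zero. -/
def AlgebraicRatio (m : ℕ) (U : Set ℂ) (a b : ℂ → ℂ) : Prop :=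
  ∃ p : Fin (m + 1) → Polynomial ℂ, (∃ β, p β ≠ 0) ∧ (∀ β, (p β).natDegree ≤ m) ∧
    ∀ z ∈ U, ∑ β : Fin (m + 1), (p β).eval z * a z ^ (β : ℕ) * b z ^ (m - β) = 0

theorem algPair_iff {m : ℕ} {U : Set ℂ} {a b : ℂ → ℂ} :
    AlgPair m U a b ↔ AlgebraicRatio m U a b := by
  classical
  constructor
  · rintro ⟨c, hc, h⟩
    obtain ⟨p, h1, h2, h3⟩ := pair_poly c hc
    exact ⟨p, h1, h2, fun z hz => by rw [← h3]; exact h z hz⟩
  · rintro ⟨p, ⟨β0, h0⟩, h2, h3⟩
    refine ⟨fun k => (p (finProdFinEquiv.symm k).2).coeff ((finProdFinEquiv.symm k).1 : ℕ), ?_,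
      fun z hz => ?_⟩
    · intro hc
      apply h0
      ext i
      by_cases hi : i ≤ m
      · have h4 := congrFun hc (finProdFinEquiv (⟨i, by omega⟩, β0))
        simpa using h4
      · rw [Polynomial.coeff_zero]
        exact Polynomial.coeff_eq_zero_of_natDegree_lt (by have := h2 β0; omega)
    · rw [← h3 z hz, ← Equiv.sum_comp finProdFinEquiv, Fintype.sum_prod_type_right]
      refine Finset.sum_congr rfl fun β _ => ?_
      rw [Polynomial.eval_eq_sum_range' (n := m + 1) (by have := h2 β; omega),
        ← Fin.sum_univ_eq_sum_range (fun i => (p β).coeff i * z ^ i), Finset.sum_mul,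
        Finset.sum_mul]
      refine Finset.sum_congr rfl fun α _ => ?_
      unfold mons
      simp only [Equiv.symm_apply_apply]
      ring

end Pool.Agent.U178.GG
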