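import Pool.Agent.V1153.UG.Spc
import Pool.Agent.TH143.GT.Kod
import Pool.Agent.TH143.GT.Desc
import Pool.Agent.Y377.IL.Rc

/-!
Projective varieties covered by rational curves: families of rational curves given by polynomials
over an extension field, embeddings of the function field in a field of rational functions, and
pluricanonical forms.
-/

set_option autoImplicit false

namespace Pool.Agent.U178.GG

open MvPolynomial Pool.Agent.V1153.UG Pool.Agent.TH143.GT Pool.Agent.W602.GT

variable {n : ℕ} {I : Ideal (MvPolynomial (Fin (n + 1)) ℂ)} {K : Type} [Field K] [Algebra ℂ K]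
  {w : ℕ} {y : Fin (n + 1) → K}

/-- a covering family of rational curves gives an embedding of the function field -/
theorem covered_of_ruled (hy : FunField I 1 K w y) (h : GmRuled I 1) : Covered K := by
  obtain ⟨M, i1, i2, P, hP, hbd, hdom, j, k, hjk⟩ := h
  obtain ⟨c, l, hc, hcl⟩ := hbd
  have hF : Fam y 1 P l := ⟨fun G hG => ⟨fun h0 => hP G (hy.mem G hG h0) hG, fun h0 => by
    by_contra h1
    exact hdom G hG (fun h2 => h1 (hy.sub.mem G h2)) h0⟩, c, hc, hcl⟩
  have hPk : P k ≠ 0 := by
    intro h0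
    apply hjk
    rw [h0, mul_zero, Polynomial.derivative_zero, mul_zero]
  have hX : ∀ i, (aeval P (X i : MvPolynomial (Fin (n + 1)) ℂ) : Polynomial M) = P i := fun i =>
    aeval_X P i
  have hn : Pool.Agent.W602.GT.val y (X k : MvPolynomial (Fin (n + 1)) ℂ) ≠ 0 := by
    rw [Ne, hF.rel (X k : MvPolynomial (Fin (n + 1)) ℂ) ⟨1, isHomogeneous_X ℂ k⟩, hX]
    exact hPk
  obtain ⟨φ, hφ⟩ := hF.emb hy.sub.ne hy.sub.gen
  refine ⟨M, i1, i2, φ, Pool.Agent.W602.GT.val y (X j : MvPolynomial (Fin (n + 1)) ℂ) /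
    Pool.Agent.W602.GT.val y (X k : MvPolynomial (Fin (n + 1)) ℂ), fun c hc => ?_⟩
  rw [hφ 1 (X j) (X k) (isHomogeneous_X ℂ j) (isHomogeneous_X ℂ k) hn, hX, hX] at hc
  have hb' : rf (P k) ≠ 0 := by rwa [Ne, rf_zero]
  apply hjk
  rw [div_eq_iff hb'] at hc
  have h2 : P j = Polynomial.C c * P k := by
    apply rf_inj
    rw [hc, rf_mul]
    congr 1
  rw [h2, Polynomial.derivative_C_mul]
  ring

/-- an embedding of the function field in a field of rational functions gives a covering family of
rational curves -/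
theorem ruled_of_covered (hy : FunField I 1 K w y) (h : Covered K) : GmRuled I 1 := by
  classical
  obtain ⟨M, i1, i2, φ, r, hr⟩ := h
  have hM : CharZero M := charZero_of_injective_algebraMap (algebraMap ℂ M).injective
  obtain ⟨l, hl⟩ := Function.ne_iff.1 hy.sub.ne
  have hl' : y l ≠ 0 := hl
  obtain ⟨b, hb⟩ := IsLocalization.exist_integer_multiples (nonZeroDivisors (Polynomial M))
    Finset.univ (fun j => φ (y j / y l))
  choose P hP using fun j => hb j (Finset.mem_univ j)
  have hb0 : (b : Polynomial M) ≠ 0 := nonZeroDivisors.ne_zero b.2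
  have hb1 : algebraMap (Polynomial M) (RatFunc M) b ≠ 0 := by
    rw [Ne, map_eq_zero_iff _ (RatFunc.algebraMap_injective M)]
    exact hb0
  have hP' : ∀ j, algebraMap (Polynomial M) (RatFunc M) (P j) =
      algebraMap (Polynomial M) (RatFunc M) b * φ (y j / y l) := by
    intro j
    rw [hP j, Algebra.smul_def]
  have hPl : P l = b := by
    apply RatFunc.algebraMap_injective M
    rw [hP' l, div_self hl', map_one, mul_one]
  -- the relations
  have hrel : ∀ (G : MvPolynomial (Fin (n + 1)) ℂ) (m : ℕ), G.IsHomogeneous m →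
      algebraMap (Polynomial M) (RatFunc M) (aeval P G) =
        algebraMap (Polynomial M) (RatFunc M) b ^ m * φ (aeval (fun j => y j / y l) G) := by
    intro G m hG
    have h1 : algebraMap (Polynomial M) (RatFunc M) (aeval P G) =
        aeval (fun j => algebraMap (Polynomial M) (RatFunc M) (P j)) G :=
      (MvPolynomial.aeval_algebraMap_apply (RatFunc M) P G).symm
    have h2 : φ (aeval (fun j => y j / y l) G) = aeval (fun j => φ (y j / y l)) G :=
      MvPolynomial.comp_aeval_apply _ φ G
    rw [h1, h2]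
    have h3 : (fun j => algebraMap (Polynomial M) (RatFunc M) (P j)) =
        fun j => algebraMap (Polynomial M) (RatFunc M) b * φ (y j / y l) := funext hP'
    rw [h3, MvPolynomial.aeval_def, MvPolynomial.eval₂_eq, MvPolynomial.aeval_def,
      MvPolynomial.eval₂_eq, Finset.mul_sum]
    refine Finset.sum_congr rfl fun d hd => ?_
    have h4 := hG (MvPolynomial.mem_support_iff.1 hd)
    have h5 : ∑ i ∈ d.support, d i = m := by
      rw [← h4, Finsupp.weight_apply, Finsupp.sum]
      simp
    simp only [mul_pow, Finset.prod_mul_distrib]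
    rw [Finset.prod_pow_eq_pow_sum, h5]
    ring
  have hval : ∀ (G : MvPolynomial (Fin (n + 1)) ℂ) (m : ℕ), G.IsHomogeneous m →
      (aeval (fun j => y j / y l) G = 0 ↔ Pool.Agent.W602.GT.val y G = 0) := by
    intro G m hG
    have h1 : aeval (fun j => y j / y l) G = (y l)⁻¹ ^ m * aeval y G := by
      have h3 : (fun j => y j / y l) = fun j => (y l)⁻¹ * y j := by
        funext j
        rw [div_eq_mul_inv, mul_comm]
      rw [h3, MvPolynomial.aeval_def, MvPolynomial.eval₂_eq, MvPolynomial.aeval_def,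
        MvPolynomial.eval₂_eq, Finset.mul_sum]
      refine Finset.sum_congr rfl fun d hd => ?_
      have h4 := hG (MvPolynomial.mem_support_iff.1 hd)
      have h5 : ∑ i ∈ d.support, d i = m := by
        rw [← h4, Finsupp.weight_apply, Finsupp.sum]
        simp
      simp only [mul_pow, Finset.prod_mul_distrib]
      rw [Finset.prod_pow_eq_pow_sum, h5]
      ring
    rw [h1, mul_eq_zero, or_iff_right (pow_ne_zero _ (inv_ne_zero hl'))]
    rfl
  have hiff : ∀ G : MvPolynomial (Fin (n + 1)) ℂ, (∃ m, G.IsHomogeneous m) →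
      ((aeval P G : Polynomial M) = 0 ↔ Pool.Agent.W602.GT.val y G = 0) := by
    rintro G ⟨m, hG⟩
    rw [← map_eq_zero_iff _ (RatFunc.algebraMap_injective M), hrel G m hG, mul_eq_zero,
      or_iff_right (pow_ne_zero _ hb1), map_eq_zero_iff φ (RingHom.injective φ.toRingHom),
      hval G m hG]
  refine ⟨M, i1, i2, P, fun F hF hFh => (hiff F hFh).2 (hy.sub.mem F hF),
    ⟨1, 0, one_ne_zero, by simp⟩, fun G hG hGI h0 => hGI (hy.mem G hG ((hiff G hG).1 h0)), ?_⟩
  by_contra hcon
  push Not at hcon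
  -- all ratios are constant
  have hPl0 : P l ≠ 0 := by rw [hPl]; exact hb0
  have hconst : ∀ j, ∃ c : M, φ (y j / y l) = algebraMap M (RatFunc M) c := by
    intro j
    obtain ⟨c, hc⟩ := Pool.Agent.Y377.IL.prop_of_wronskian hPl0 (hcon j l)
    refine ⟨c, ?_⟩
    have h1 := hP' j
    rw [hc, hPl, map_mul, mul_comm] at h1
    have h2 := mul_left_cancel₀ hb1 h1
    rw [← h2]
    rfl
  -- the subfield of the elements with constant image
  let A : IntermediateField ℂ K :=
    { (Subalgebra.comap φ (IsScalarTower.toAlgHom ℂ M (RatFunc M)).range : Subalgebra ℂ K) with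
      inv_mem' := by
        rintro x ⟨c, hc⟩
        exact ⟨c⁻¹, by
          have h1 : (IsScalarTower.toAlgHom ℂ M (RatFunc M)) c = φ x := hc
          change (IsScalarTower.toAlgHom ℂ M (RatFunc M)) c⁻¹ = φ x⁻¹
          rw [map_inv₀, map_inv₀, h1]⟩ }
  have hA : ∀ x : K, x ∈ A ↔ ∃ c : M, algebraMap M (RatFunc M) c = φ x := fun x => Iff.rfl
  have hAtop : coords ℂ y ≤ A := by
    unfold coords
    rw [IntermediateField.adjoin_le_iff]
    rintro z ⟨i, j, hj, rfl⟩
    have h1 : ∀ i, y i / y l ∈ A := fun i => by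
      obtain ⟨c, hc⟩ := hconst i
      exact (hA _).2 ⟨c, hc.symm⟩
    have h2 : y i / y j = (y i / y l) / (y j / y l) := by
      field_simp
    rw [h2]
    exact A.div_mem (h1 i) (h1 j)
  rw [hy.sub.gen] at hAtop
  obtain ⟨c, hc⟩ := (hA r).1 (hAtop (IntermediateField.mem_top))
  exact hr c hc.symm

/-- projective varieties which are covered by rational curves have no pluricanonical forms -/
theorem pluri_of_ruled (hy : FunField I 1 K w y) (h : GmRuled I 1) (N : ℕ) (hN : 0 < N)
    (ω : (Fin w → Derivation ℂ K K) → K) (hω : Pluricanonical w N ω) : ω = 0 := by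
  obtain ⟨M, i1, i2, P, hP, hbd, hdom, j, k, hjk⟩ := h
  have hrel : ∀ G : MvPolynomial (Fin (n + 1)) ℂ, IsForm G →
      (Pool.Agent.W602.GT.val y G = 0 ↔ (aeval P G : Polynomial M) = 0) := fun G hG =>
    ⟨fun h0 => hP G (hy.mem G hG h0) hG, fun h0 => by
      by_contra h1
      exact hdom G hG (fun h2 => h1 (hy.sub.mem G h2)) h0⟩
  obtain ⟨c, e, hc, hce⟩ := hbd
  have hPk : P k ≠ 0 := by
    intro h0
    apply hjk
    rw [h0, mul_zero, Polynomial.derivative_zero, mul_zero]
  obtain ⟨M', _, _, m', hm', W', hW1, ⟨c', e', hc', hce'⟩, hW3⟩ := desc P (X k) (X j) 1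
    ⟨1, c, e, hc, by rw [mul_one]; exact hce⟩ (by
      rw [aeval_X, aeval_X]
      exact hjk)
  have hF : Fam y 1 W' e' := ⟨fun H hH => by rw [hrel H hH, hW1 H], c', hc', hce'⟩
  have he : e' = 0 := by
    rw [map_one] at hce'
    have h2 := congrArg Polynomial.natDegree hce'
    rw [Polynomial.natDegree_one, Polynomial.natDegree_C_mul_X_pow e' c' hc'] at h2
    exact h2.symm
  have hvk : Pool.Agent.W602.GT.val y (X k : MvPolynomial (Fin (n + 1)) ℂ) ≠ 0 := by
    intro h0
    rw [hrel (X k : MvPolynomial (Fin (n + 1)) ℂ) ⟨1, isHomogeneous_X ℂ k⟩, aeval_X] at h0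
    exact hPk h0
  funext D
  exact (hF.main hy.sub.dim hm' hy.sub.ne hy.sub.gen (isHomogeneous_one _ _)).2.2.2 he
    ⟨Pool.Agent.W602.GT.val y (X j : MvPolynomial (Fin (n + 1)) ℂ) /
      Pool.Agent.W602.GT.val y (X k : MvPolynomial (Fin (n + 1)) ℂ),
      fun h => hW3 (h 1 (X j) (X k) (isHomogeneous_X ℂ j) (isHomogeneous_X ℂ k) hvk rfl)⟩
    N hN ω (hω.logSec _) D

end Pool.Agent.U178.GG
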